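import Mathlib

/-! MP_d6b04a_al: in an algebraic modular spatial lattice, every join-cover of a compact element
is refined by a minimal join-cover. -/

namespace Pool.Agent.Results.MP_d6b04a_al.MinimalCovers

universe u

variable {L : Type u}

/-- `X` refines `Y`. -/
def Refines [CompleteLattice L] (X Y : Finset L) : Prop := ∀ x ∈ X, ∃ y ∈ Y, x ≤ y

/-- compact elements -/
def IsCompactElt [CompleteLattice L] (p : L) : Prop :=
  ∀ D : Set L, D.Nonempty → DirectedOn (· ≤ ·) D → p ≤ sSup D → ∃ d ∈ D, p ≤ d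

/-- points (completely join-irreducible elements) -/
def IsPoint [CompleteLattice L] (p : L) : Prop := ∃ q, IsGreatest {x : L | x < p} q

/-- algebraic lattices -/
def IsAlgebraic (L : Type u) [CompleteLattice L] : Prop :=
  ∀ x : L, ∃ S : Set L, (∀ s ∈ S, IsCompactElt s) ∧ x = sSup S

/-- spatial lattices -/
def IsSpatial (L : Type u) [CompleteLattice L] : Prop :=
  ∀ x : L, ∃ S : Set L, (∀ s ∈ S, IsPoint s) ∧ x = sSup S

/-- join-covers -/
def IsJoinCover [CompleteLattice L] (p : L) (E : Finset L) : Prop := p ≤ sSup (E : Set L)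

/-- minimal join-covers -/
def IsMinimalJoinCover [CompleteLattice L] (p : L) (E : Finset L) : Prop :=
  IsJoinCover p E ∧ ∀ X : Finset L, IsJoinCover p X → Refines X E → E ⊆ X

theorem cover_iff [CompleteLattice L] (p : L) (E : Finset L) :
    IsJoinCover p E ↔ p ≤ E.sup id := by
  unfold IsJoinCover
  rw [Finset.sup_id_eq_sSup]

theorem key_modular [CompleteLattice L] [IsModularLattice L] (g x q : L)
    (hq : IsGreatest {y : L | y < x} q) (hx : ¬ x ≤ g) : ¬ x ≤ g ⊔ q := by
  intro h
  have hqx : q ≤ x := le_of_lt hq.1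
  have h1 : x ⊓ g ⊔ q = x := by
    have := inf_sup_assoc_of_le g hqx
    rw [this]
    exact inf_eq_left.2 h
  have h2 : x ⊓ g < x := lt_of_le_of_ne inf_le_left (fun h' => hx (inf_eq_left.1 h'))
  have h3 : x ⊓ g ≤ q := hq.2 h2
  rw [sup_eq_right.2 h3] at h1
  exact absurd hq.1 (by rw [h1]; exact lt_irrefl x)

open Classical in
theorem main_step [CompleteLattice L] [IsModularLattice L] (hsp : IsSpatial L) (p b e : L)
    (hp : IsCompactElt p) (hpe : p ≤ b ⊔ e) :
    ∃ X : Finset L, (∀ x ∈ X, IsPoint x ∧ x ≤ e) ∧ p ≤ b ⊔ X.sup id ∧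
      ∀ x ∈ X, ∀ q, IsGreatest {y : L | y < x} q → ¬ p ≤ b ⊔ (X \ {x}).sup id ⊔ q := by
  obtain ⟨S, hS, hSe⟩ := hsp (e ⊓ (b ⊔ p))
  have hbq : b ⊔ e ⊓ (b ⊔ p) = b ⊔ p := by
    rw [sup_comm, inf_comm, inf_sup_assoc_of_le e le_sup_left]
    rw [inf_eq_left.2]
    exact sup_le le_sup_right (by rw [sup_comm]; exact hpe)
  -- finite subcover
  have hex : ∃ n : ℕ, ∃ T : Finset L, T.card = n ∧ (∀ x ∈ T, x ∈ S) ∧ p ≤ b ⊔ T.sup id := by
    obtain ⟨d, ⟨T, hT, rfl⟩, hd⟩ := hp {d | ∃ T : Finset L, (∀ x ∈ T, x ∈ S) ∧ d = b ⊔ T.sup id}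
      ⟨b ⊔ (∅ : Finset L).sup id, ∅, by simp, rfl⟩ (by
        rintro _ ⟨T, hT, rfl⟩ _ ⟨T', hT', rfl⟩
        refine ⟨_, ⟨T ∪ T', ?_, rfl⟩, ?_, ?_⟩
        · intro x hx
          rcases Finset.mem_union.1 hx with h | h
          · exact hT x h
          · exact hT' x h
        · exact sup_le_sup_left (Finset.sup_mono Finset.subset_union_left) _
        · exact sup_le_sup_left (Finset.sup_mono Finset.subset_union_right) _) (by
        have h1 : b ⊔ p ≤ sSup {d | ∃ T : Finset L, (∀ x ∈ T, x ∈ S) ∧ d = b ⊔ T.sup id} := by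
          rw [← hbq, hSe]
          apply sup_le
          · exact le_sup_left.trans (le_sSup ⟨∅, by simp, rfl⟩)
          · apply sSup_le
            intro s hs
            refine le_trans ?_ (le_sSup ⟨{s}, by simpa using hs, rfl⟩)
            simp
        exact le_sup_right.trans h1)
    exact ⟨_, T, rfl, hT, hd⟩
  obtain ⟨T, hTc, hTS, hpT⟩ := Nat.find_spec hex
  have hmin : ∀ T' : Finset L, (∀ x ∈ T', x ∈ S) → p ≤ b ⊔ T'.sup id → T.card ≤ T'.card := by
    intro T' h1 h2
    rw [hTc]
    exact Nat.find_min' hex ⟨T', rfl, h1, h2⟩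
  have hSle : ∀ s ∈ S, s ≤ e ⊓ (b ⊔ p) := fun s hs => hSe ▸ le_sSup hs
  refine ⟨T, fun x hx => ⟨hS x (hTS x hx), (hSle x (hTS x hx)).trans inf_le_left⟩, hpT, ?_⟩
  intro x hx q hq hle
  have hxle : x ≤ b ⊔ p := (hSle x (hTS x hx)).trans inf_le_right
  have hxg : ¬ x ≤ b ⊔ (T \ {x}).sup id := by
    intro h
    have h1 : p ≤ b ⊔ (T \ {x}).sup id := by
      refine hpT.trans (sup_le le_sup_left (Finset.sup_le ?_))
      intro y hy
      by_cases hyx : y = x
      · rw [hyx]; exact h
      · exact le_sup_of_le_right (Finset.le_sup (f := id)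
          (Finset.mem_sdiff.2 ⟨hy, by simpa using hyx⟩))
    have h2 := hmin (T \ {x}) (fun y hy => hTS y (Finset.mem_sdiff.1 hy).1) h1
    have h3 : (T \ {x}).card < T.card := by
      apply Finset.card_lt_card
      rw [Finset.ssubset_iff_of_subset Finset.sdiff_subset]
      exact ⟨x, hx, by simp⟩
    omega
  apply key_modular _ x q hq hxg
  exact hxle.trans (sup_le (le_sup_left.trans le_sup_left) hle)

open Classical in
theorem relative [CompleteLattice L] [IsModularLattice L] (hsp : IsSpatial L) (p : L)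
    (hp : IsCompactElt p) (E : Finset L) :
    ∀ b : L, p ≤ b ⊔ E.sup id → ∃ F : Finset L, Refines F E ∧ (∀ f ∈ F, IsPoint f) ∧
      p ≤ b ⊔ F.sup id ∧
      ∀ x ∈ F, ∀ q, IsGreatest {y : L | y < x} q → ¬ p ≤ b ⊔ (F \ {x}).sup id ⊔ q := by
  induction E using Finset.induction_on with
  | empty =>
    intro b hb
    refine ⟨∅, ?_, ?_, hb, ?_⟩
    · intro x hx
      simp at hx
    · intro x hx
      simp at hx
    · intro x hx
      simp at hx
  | insert e E _ ih =>
    intro b hb
    rw [Finset.sup_insert, id, ← sup_assoc, sup_right_comm] at hb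
    obtain ⟨X, hX, hpX, hXmin⟩ := main_step hsp p (b ⊔ E.sup id) e hp hb
    obtain ⟨F, hF, hFp, hpF, hFmin⟩ := ih (b ⊔ X.sup id) (by
      rw [sup_right_comm]; exact hpX)
    have hFE : F.sup id ≤ E.sup id := by
      apply Finset.sup_le
      intro x hx
      obtain ⟨y, hy, hxy⟩ := hF x hx
      exact le_trans hxy (Finset.le_sup (f := id) hy)
    refine ⟨X ∪ F, ?_, ?_, ?_, ?_⟩
    · intro x hx
      rcases Finset.mem_union.1 hx with h | h
      · exact ⟨e, Finset.mem_insert_self _ _, (hX x h).2⟩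
      · obtain ⟨y, hy, hxy⟩ := hF x h
        exact ⟨y, Finset.mem_insert_of_mem hy, hxy⟩
    · intro x hx
      rcases Finset.mem_union.1 hx with h | h
      · exact (hX x h).1
      · exact hFp x h
    · rw [Finset.sup_union, ← sup_assoc]
      exact hpF
    · intro x hx q hq hle
      rcases Finset.mem_union.1 hx with h | h
      · apply hXmin x h q hq
        refine hle.trans (sup_le_sup_right ?_ q)
        apply sup_le (le_sup_left.trans le_sup_left)
        apply Finset.sup_le
        intro y hy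
        rw [Finset.mem_sdiff, Finset.mem_union] at hy
        rcases hy.1 with h1 | h1
        · exact le_sup_of_le_right (Finset.le_sup (f := id) (Finset.mem_sdiff.2 ⟨h1, hy.2⟩))
        · refine le_sup_of_le_left (le_sup_of_le_right (le_trans ?_ hFE))
          exact Finset.le_sup (f := id) h1
      · apply hFmin x h q hq
        refine hle.trans (sup_le_sup_right ?_ q)
        apply sup_le (le_sup_left.trans le_sup_left)
        apply Finset.sup_le
        intro y hy
        rw [Finset.mem_sdiff, Finset.mem_union] at hy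
        rcases hy.1 with h1 | h1
        · exact le_sup_of_le_left (le_sup_of_le_right (Finset.le_sup (f := id) h1))
        · exact le_sup_of_le_right (Finset.le_sup (f := id) (Finset.mem_sdiff.2 ⟨h1, hy.2⟩))

/-- In an algebraic, modular, spatial lattice every join-cover of a compact element is refined by
a minimal join-cover. -/
theorem result (L : Type u) [CompleteLattice L] [IsModularLattice L] (_halg : IsAlgebraic L)
    (hsp : IsSpatial L) (p : L) (hp : IsCompactElt p) (E : Finset L) (hE : IsJoinCover p E) :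
    ∃ F : Finset L, IsMinimalJoinCover p F ∧ Refines F E := by
  classical
  obtain ⟨F, hF, hFp, hpF, hFmin⟩ := relative hsp p hp E ⊥ (by
    rw [bot_sup_eq]; exact (cover_iff p E).1 hE)
  rw [bot_sup_eq] at hpF
  refine ⟨F, ⟨(cover_iff p F).2 hpF, ?_⟩, hF⟩
  intro X hX hXF
  by_contra hFX
  rw [Finset.not_subset] at hFX
  obtain ⟨f, hf, hfX⟩ := hFX
  obtain ⟨q, hq⟩ := hFp f hf
  apply hFmin f hf q hq
  rw [bot_sup_eq]
  refine ((cover_iff p X).1 hX).trans (Finset.sup_le ?_)
  intro y hy
  obtain ⟨z, hz, hyz⟩ := hXF y hy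
  by_cases hzf : z = f
  · have : y < f := lt_of_le_of_ne (hzf ▸ hyz) (fun h => hfX (h ▸ hy))
    exact le_sup_of_le_right (hq.2 this)
  · exact le_sup_of_le_left (le_trans hyz (Finset.le_sup (f := id)
      (Finset.mem_sdiff.2 ⟨hz, by simpa using hzf⟩)))

end Pool.Agent.Results.MP_d6b04a_al.MinimalCovers
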